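import Pool.Agent.H7.LD.Stmts
import Pool.Agent.H48.IA.AUGa

/-!
Row AUG, part 2: counting of the missing pairs.
-/

set_option autoImplicit false

open Finset

namespace Pool.LD7

open Pool.Agent.H23.KT Pool.Agent.H46.KW Pool.KQ Pool.GT7 Pool.GU7 Pool.HZ7 Pool.IA7 Pool.IA7.Aug

namespace Aug

section

variable {V : Type} [DecidableEq V] (G : SimpleGraph V) {n : ℕ} (Q : Fin n → Finset V)

/-- The ordered missing pairs with the first element in `Q k`. -/
noncomputable def X1 (k : Fin n) : Finset (V × V) := (HP G Q).filter (fun x => x.1 ∈ Q k)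

/-- The ordered missing pairs with the second element in `Q k`. -/
noncomputable def X2 (k : Fin n) : Finset (V × V) := (HP G Q).filter (fun x => x.2 ∈ Q k)

/-- The ordered missing pairs with the first element not in `Q k`, the second not in `Q k'`. -/
noncomputable def PP (k k' : Fin n) : Finset (V × V) :=
  (HP G Q).filter (fun x => x.1 ∉ Q k ∧ x.2 ∉ Q k')

/-- The hypotheses. -/
structure Dat (σ : Fin n → ℕ) (δ : V → ℕ) (a K m : ℕ) : Prop where
  par : Par G Q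
  siz : ∀ j, (Q j).card + σ j = a + 1
  deg : ∀ j, ∀ u ∈ Q j, (N G Q u).card = σ j + δ u
  sm : ∑ j, σ j = m
  m3 : 2 ≤ m
  big : 2 ≤ ∑ u ∈ un Q, δ u
  sml : ∑ u ∈ un Q, δ u ≤ K
  lrg : 16 * ((1 + (m + K)) * (m + K)) + 2 * m ^ 2 + 2 * K + m < a

variable {G Q}

theorem card_X1 (k : Fin n) : (X1 G Q k).card = ∑ u ∈ Q k, (N G Q u).card := by
  have h : X1 G Q k = (Q k).biUnion (fun u => (N G Q u).image fun v => (u, v)) := by
    ext ⟨u, v⟩
    simp only [X1, mem_filter, mem_HP, mem_biUnion, mem_image, Pool.IA7.Aug.mem_N, Prod.mk.injEq]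
    constructor
    · rintro ⟨h1, h2⟩
      exact ⟨u, h2, v, h1, rfl, rfl⟩
    · rintro ⟨u', h2, v', h1, rfl, rfl⟩
      exact ⟨h1, h2⟩
  rw [h, card_biUnion]
  · refine sum_congr rfl fun u _ => ?_
    rw [card_image_of_injective]
    intro v v' hvv
    exact (Prod.mk.inj hvv).2
  · intro u _ u' _ huu
    refine Finset.disjoint_left.2 fun x hx hy => ?_
    obtain ⟨v, -, rfl⟩ := mem_image.1 hx
    obtain ⟨v', -, h'⟩ := mem_image.1 hy
    exact huu (Prod.mk.inj h').1.symm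

theorem card_X2 (k : Fin n) : (X2 G Q k).card = (X1 G Q k).card := by
  refine Finset.card_bij (fun x _ => (x.2, x.1)) ?_ ?_ ?_
  · intro x hx
    simp only [X1, X2, mem_filter, mem_HP] at hx ⊢
    exact ⟨hx.1.symm, hx.2⟩
  · intro x _ y _ hxy
    exact Prod.ext (Prod.mk.inj hxy).2 (Prod.mk.inj hxy).1
  · intro x hx
    simp only [X1, mem_filter, mem_HP] at hx
    refine ⟨(x.2, x.1), ?_, rfl⟩
    simp only [X2, mem_filter, mem_HP]
    exact ⟨hx.1.symm, hx.2⟩

theorem card_HP (hP : Par G Q) : (HP G Q).card = ∑ k, (X1 G Q k).card := by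
  have h : HP G Q = univ.biUnion (X1 G Q) := by
    ext x
    simp only [X1, mem_filter, mem_HP, mem_biUnion, mem_univ, true_and]
    constructor
    · intro h
      obtain ⟨k, hk⟩ := mem_un'.1 h.left
      exact ⟨k, h, hk⟩
    · rintro ⟨k, h, -⟩
      exact h
  rw [h, card_biUnion]
  intro i _ k _ hik
  refine Finset.disjoint_left.2 fun x hx hy => ?_
  simp only [X1, mem_filter] at hx hy
  exact hik (part_eq hP hx.2 hy.2)

theorem card_PP (k k' : Fin n) : (PP G Q k k').card + (X1 G Q k).card + (X2 G Q k').card =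
    (HP G Q).card + (X1 G Q k ∩ X2 G Q k').card := by
  have h1 : PP G Q k k' = HP G Q \ (X1 G Q k ∪ X2 G Q k') := by
    ext x
    simp only [PP, X1, X2, mem_filter, mem_sdiff, mem_union]
    tauto
  have h2 : X1 G Q k ∪ X2 G Q k' ⊆ HP G Q :=
    union_subset (filter_subset _ _) (filter_subset _ _)
  have h3 := card_sdiff_add_card_eq_card h2
  have h4 := card_union_add_card_inter (X1 G Q k) (X2 G Q k')
  rw [h1]
  omega

variable {σ : Fin n → ℕ} {δ : V → ℕ} {a K m : ℕ}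

theorem sumD (hP : Par G Q) : ∑ u ∈ un Q, δ u = ∑ k, ∑ u ∈ Q k, δ u := by
  unfold un
  rw [sum_biUnion]
  intro i _ k _ hik
  exact hP.dis i k hik

theorem Dk_le (h : Dat G Q σ δ a K m) (k : Fin n) :
    ∑ u ∈ Q k, δ u ≤ ∑ u ∈ un Q, δ u := by
  rw [sumD h.par]
  exact single_le_sum (f := fun k => ∑ u ∈ Q k, δ u) (fun _ _ => Nat.zero_le _) (mem_univ k)

theorem sig_le (h : Dat G Q σ δ a K m) (k : Fin n) : σ k ≤ m := by
  rw [← h.sm]
  exact single_le_sum (f := σ) (fun _ _ => Nat.zero_le _) (mem_univ k)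

theorem S_eq (h : Dat G Q σ δ a K m) (k : Fin n) :
    ((X1 G Q k).card : ℤ) = ((a : ℤ) + 1 - σ k) * σ k + (∑ u ∈ Q k, δ u : ℕ) := by
  have h1 : (X1 G Q k).card = (Q k).card * σ k + ∑ u ∈ Q k, δ u := by
    rw [card_X1, sum_congr rfl (h.deg k), sum_add_distrib, sum_const, smul_eq_mul]
  have h2 : ((Q k).card : ℤ) = (a : ℤ) + 1 - σ k := by
    have := h.siz k
    have h3 : ((Q k).card : ℤ) + σ k = a + 1 := by exact_mod_cast this
    linarith
  rw [h1]
  push_cast
  rw [h2]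

theorem T_eq (h : Dat G Q σ δ a K m) :
    ((HP G Q).card : ℤ) = ((a : ℤ) + 1) * m - ∑ k, (σ k : ℤ) ^ 2 + (∑ u ∈ un Q, δ u : ℕ) := by
  rw [card_HP h.par, sumD h.par, ← h.sm]
  push_cast
  rw [sum_congr rfl fun k _ => S_eq h k, mul_sum, ← sum_sub_distrib, ← sum_add_distrib]
  refine sum_congr rfl fun k _ => ?_
  push_cast
  ring

theorem sq_le (h : Dat G Q σ δ a K m) : ∑ k, (σ k : ℤ) ^ 2 ≤ (m : ℤ) ^ 2 := by
  have h1 : ∑ k, (σ k : ℤ) ^ 2 ≤ ∑ k, (σ k : ℤ) * m := by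
    refine sum_le_sum fun k _ => ?_
    have h2 : (σ k : ℤ) ≤ m := by exact_mod_cast sig_le h k
    have h3 : (0 : ℤ) ≤ σ k := Int.natCast_nonneg _
    nlinarith
  refine h1.trans (le_of_eq ?_)
  rw [← sum_mul]
  have : (∑ k, (σ k : ℤ)) = m := by exact_mod_cast h.sm
  rw [this]
  ring

theorem PP_eq (h : Dat G Q σ δ a K m) (k k' : Fin n) :
    ((PP G Q k k').card : ℤ) = ((a : ℤ) + 1) * (m - σ k - σ k') - ∑ k, (σ k : ℤ) ^ 2 +
      (σ k : ℤ) ^ 2 + (σ k' : ℤ) ^ 2 + (∑ u ∈ un Q, δ u : ℕ) - (∑ u ∈ Q k, δ u : ℕ) -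
      (∑ u ∈ Q k', δ u : ℕ) + (X1 G Q k ∩ X2 G Q k').card := by
  have h1 : ((PP G Q k k').card : ℤ) + (X1 G Q k).card + (X2 G Q k').card =
    (HP G Q).card + (X1 G Q k ∩ X2 G Q k').card := by exact_mod_cast card_PP k k'
  rw [card_X2, S_eq h k, S_eq h k', T_eq h] at h1
  linear_combination h1

theorem inter_empty (hP : Par G Q) (k : Fin n) : X1 G Q k ∩ X2 G Q k = ∅ := by
  rw [Finset.eq_empty_iff_forall_notMem]
  intro x hx
  simp only [X1, X2, mem_inter, mem_filter, mem_HP] at hx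
  exact hx.1.1.part hP hx.1.2 hx.2.2

theorem lrg' (h : Dat G Q σ δ a K m) :
    (16 * ((1 + (m + K)) * (m + K) : ℕ) : ℤ) + 2 * (m : ℤ) ^ 2 + 2 * K + m < a := by
  exact_mod_cast h.lrg

/-- The case `σ k + σ k' < m`. -/
theorem cA (h : Dat G Q σ δ a K m) (k k' : Fin n) (hk : σ k + σ k' < m) :
    16 * ((1 + (m + K)) * (m + K)) < (PP G Q k k').card := by
  have h1 := PP_eq h k k'
  have h2 := lrg' h
  have h3 : ((∑ u ∈ Q k, δ u : ℕ) : ℤ) ≤ K := by exact_mod_cast (Dk_le h k).trans h.sml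
  have h3' : ((∑ u ∈ Q k', δ u : ℕ) : ℤ) ≤ K := by exact_mod_cast (Dk_le h k').trans h.sml
  have h4 : (0 : ℤ) ≤ ((∑ u ∈ un Q, δ u : ℕ) : ℤ) := Int.natCast_nonneg _
  have h5 := sq_le h
  have h6 : (1 : ℤ) ≤ (m : ℤ) - σ k - σ k' := by
    have : (σ k : ℤ) + σ k' < m := by exact_mod_cast hk
    linarith
  have h7 : ((a : ℤ) + 1) ≤ ((a : ℤ) + 1) * (m - σ k - σ k') :=
    le_mul_of_one_le_right (by positivity) h6
  have h8 : (0 : ℤ) ≤ (X1 G Q k ∩ X2 G Q k').card := Int.natCast_nonneg _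
  have h9 : (0 : ℤ) ≤ (m : ℤ) ^ 2 := sq_nonneg _
  have h10 : (0 : ℤ) ≤ (σ k : ℤ) ^ 2 := sq_nonneg _
  have h11 : (0 : ℤ) ≤ (σ k' : ℤ) ^ 2 := sq_nonneg _
  have h12 : (0 : ℤ) ≤ (m : ℤ) := Int.natCast_nonneg _
  have h13 : ((16 * ((1 + (m + K)) * (m + K)) : ℕ) : ℤ) < (PP G Q k k').card := by
    push_cast at h2 ⊢
    rw [h1]
    linarith
  exact_mod_cast h13

/-- `2 σ k ≤ m`. -/
theorem cB (h : Dat G Q σ δ a K m) (k : Fin n) : 2 * σ k ≤ m := by
  by_contra hk
  have h1 := PP_eq h k k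
  rw [inter_empty h.par] at h1
  have h2 := lrg' h
  have h0 : (0 : ℤ) ≤ (PP G Q k k).card := Int.natCast_nonneg _
  have h3 : (0 : ℤ) ≤ ((∑ u ∈ Q k, δ u : ℕ) : ℤ) := Int.natCast_nonneg _
  have h4 : ((∑ u ∈ un Q, δ u : ℕ) : ℤ) ≤ K := by exact_mod_cast h.sml
  have h6 : (m : ℤ) - σ k - σ k ≤ -1 := by
    have : (m : ℤ) < 2 * σ k := by exact_mod_cast (not_le.1 hk)
    linarith
  have h7 : ((a : ℤ) + 1) * (m - σ k - σ k) ≤ -((a : ℤ) + 1) := by
    have : (0 : ℤ) ≤ (a : ℤ) + 1 := by positivity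
    nlinarith
  have h8 : (σ k : ℤ) ^ 2 ≤ (m : ℤ) ^ 2 := by
    have : (σ k : ℤ) ≤ m := by exact_mod_cast sig_le h k
    have h3 : (0 : ℤ) ≤ σ k := Int.natCast_nonneg _
    nlinarith
  have h9 : (0 : ℤ) ≤ ∑ k, (σ k : ℤ) ^ 2 := sum_nonneg fun _ _ => sq_nonneg _
  have h12 : (0 : ℤ) ≤ (m : ℤ) := Int.natCast_nonneg _
  have h13 : (0 : ℤ) ≤ ((16 * ((1 + (m + K)) * (m + K)) : ℕ) : ℤ) := Int.natCast_nonneg _
  push_cast at h2 h13 h1 h3 h4
  simp only [card_empty, Nat.cast_zero] at h1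
  linarith

/-- Many pairs which end in `Q k`. -/
theorem cC (h : Dat G Q σ δ a K m) (k : Fin n) (hk : 1 ≤ σ k) :
    (a : ℤ) + 1 - m ≤ (X1 G Q k).card := by
  rw [S_eq h k]
  have h3 : (0 : ℤ) ≤ ((∑ u ∈ Q k, δ u : ℕ) : ℤ) := Int.natCast_nonneg _
  have h4 : (1 : ℤ) ≤ σ k := by exact_mod_cast hk
  have h5 : (σ k : ℤ) ≤ m := by exact_mod_cast sig_le h k
  have h2 := lrg' h
  have h13 : (0 : ℤ) ≤ ((16 * ((1 + (m + K)) * (m + K)) : ℕ) : ℤ) := Int.natCast_nonneg _
  have h9 : (0 : ℤ) ≤ (m : ℤ) ^ 2 := sq_nonneg _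
  have h14 : (0 : ℤ) ≤ (K : ℤ) := Int.natCast_nonneg _
  push_cast at h2 h13
  have h6 : (0 : ℤ) ≤ (a : ℤ) + 1 - σ k := by linarith
  nlinarith

/-- The case `k ≠ k'`. -/
theorem cD (h : Dat G Q σ δ a K m) (k k' : Fin n) (hkk : k ≠ k') :
    16 * ((1 + (m + K)) * (m + K)) < (PP G Q k k').card := by
  by_cases hs : σ k + σ k' < m
  · exact cA h k k' hs
  have hk := cB h k
  have hk' := cB h k'
  have hm := h.m3
  have e1 : 2 * σ k = m := by omega
  have e2 : 2 * σ k' = m := by omega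
  -- all others are zero
  have hz : ∀ j, j ≠ k → j ≠ k' → σ j = 0 := by
    intro j hj hj'
    have h1 := h.sm
    rw [← add_sum_erase univ σ (mem_univ k), ← add_sum_erase (univ.erase k) σ
      (mem_erase.2 ⟨hkk.symm, mem_univ k'⟩)] at h1
    have h2 : σ j ≤ ∑ x ∈ (univ.erase k).erase k', σ x :=
      single_le_sum (f := σ) (fun _ _ => Nat.zero_le _)
        (mem_erase.2 ⟨hj', mem_erase.2 ⟨hj, mem_univ j⟩⟩)
    omega
  -- the pairs from `Q k` to `Q k'`
  have h1 : (X1 G Q k).card ≤ (X1 G Q k ∩ X2 G Q k').card +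
      ∑ j ∈ (univ.erase k).erase k', (X2 G Q j).card := by
    have hsub : X1 G Q k ⊆ (X1 G Q k ∩ X2 G Q k') ∪
        ((univ.erase k).erase k').biUnion (X2 G Q) := by
      intro x hx
      have hx0 := hx
      simp only [X1, mem_filter, mem_HP] at hx
      obtain ⟨j, hj⟩ := mem_un'.1 hx.1.right
      have hjk : j ≠ k := by
        rintro rfl
        exact hx.1.part h.par hx.2 hj
      have hxj : x ∈ X2 G Q j := by
        simp only [X2, mem_filter, mem_HP]
        exact ⟨hx.1, hj⟩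
      by_cases hjk' : j = k'
      · subst hjk'
        exact mem_union_left _ (mem_inter.2 ⟨hx0, hxj⟩)
      · exact mem_union_right _ (mem_biUnion.2 ⟨j, mem_erase.2 ⟨hjk', mem_erase.2
          ⟨hjk, mem_univ j⟩⟩, hxj⟩)
    exact (card_le_card hsub).trans ((card_union_le _ _).trans
      (Nat.add_le_add_left card_biUnion_le _))
  have h2 : ∑ j ∈ (univ.erase k).erase k', (X2 G Q j).card ≤ K := by
    have h3 : ∀ j ∈ (univ.erase k).erase k', (X2 G Q j).card = ∑ u ∈ Q j, δ u := by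
      intro j hj
      have h4 := S_eq h j
      rw [hz j (mem_erase.1 (mem_erase.1 hj).2).1 (mem_erase.1 hj).1] at h4
      rw [card_X2]
      simp only [Nat.cast_zero, mul_zero, zero_add] at h4
      exact_mod_cast h4
    rw [sum_congr rfl h3]
    refine le_trans ?_ h.sml
    rw [sumD h.par]
    exact sum_le_sum_of_subset (subset_univ _)
  have h5 := cC h k (by omega)
  have h6 := PP_eq h k k'
  have h7 := lrg' h
  have h8 : ∑ j, (σ j : ℤ) ^ 2 = (σ k : ℤ) ^ 2 + (σ k' : ℤ) ^ 2 := by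
    rw [← add_sum_erase univ _ (mem_univ k), ← add_sum_erase (univ.erase k) _
      (mem_erase.2 ⟨hkk.symm, mem_univ k'⟩)]
    rw [sum_eq_zero (s := (univ.erase k).erase k')]
    · ring
    · intro j hj
      rw [hz j (mem_erase.1 (mem_erase.1 hj).2).1 (mem_erase.1 hj).1]
      simp
  have h9 : ((m : ℤ) - σ k - σ k') = 0 := by
    have e1' : 2 * (σ k : ℤ) = m := by exact_mod_cast e1
    have e2' : 2 * (σ k' : ℤ) = m := by exact_mod_cast e2
    linarith
  rw [h9, h8] at h6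
  have h10 : ∑ u ∈ Q k, δ u + ∑ u ∈ Q k', δ u ≤ ∑ u ∈ un Q, δ u := by
    rw [sumD h.par, ← add_sum_erase univ _ (mem_univ k), ← add_sum_erase (univ.erase k) _
      (mem_erase.2 ⟨hkk.symm, mem_univ k'⟩)]
    omega
  have h1' : ((X1 G Q k).card : ℤ) ≤ (X1 G Q k ∩ X2 G Q k').card + K := by
    exact_mod_cast h1.trans (Nat.add_le_add_left h2 _)
  have h10' : ((∑ u ∈ Q k, δ u : ℕ) : ℤ) + (∑ u ∈ Q k', δ u : ℕ) ≤ (∑ u ∈ un Q, δ u : ℕ) := by
    exact_mod_cast h10
  have h12 : (0 : ℤ) ≤ (m : ℤ) := Int.natCast_nonneg _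
  have h14 : (0 : ℤ) ≤ (K : ℤ) := Int.natCast_nonneg _
  have h15 : (0 : ℤ) ≤ (m : ℤ) ^ 2 := sq_nonneg _
  have h13 : ((16 * ((1 + (m + K)) * (m + K)) : ℕ) : ℤ) < (PP G Q k k').card := by
    push_cast at h7 ⊢
    push_cast at h6 h10'
    linarith
  exact_mod_cast h13

/-- A missing pair which avoids `Q k`. -/
theorem cE (h : Dat G Q σ δ a K m) (k : Fin n) (hk : 2 * σ k = m) (hD : ∑ u ∈ Q k, δ u = 0) :
    (PP G Q k k).Nonempty := by
  have h1 := PP_eq h k k
  rw [inter_empty h.par, hD] at h1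
  have e1 : ((m : ℤ) - σ k - σ k) = 0 := by
    have e1' : 2 * (σ k : ℤ) = m := by exact_mod_cast hk
    linarith
  have h2 : ∑ j, (σ j : ℤ) ^ 2 ≤ 2 * (σ k : ℤ) ^ 2 := by
    have h3 : ∑ j ∈ univ.erase k, σ j = σ k := by
      have := h.sm
      rw [← add_sum_erase univ σ (mem_univ k)] at this
      omega
    rw [← add_sum_erase univ _ (mem_univ k)]
    have h4 : ∑ j ∈ univ.erase k, (σ j : ℤ) ^ 2 ≤ ∑ j ∈ univ.erase k, (σ j : ℤ) * σ k := by
      refine sum_le_sum fun j hj => ?_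
      have h5 : σ j ≤ σ k := by
        rw [← h3]
        exact single_le_sum (f := σ) (fun _ _ => Nat.zero_le _) hj
      have h5' : (σ j : ℤ) ≤ σ k := by exact_mod_cast h5
      have h6 : (0 : ℤ) ≤ σ j := Int.natCast_nonneg _
      nlinarith
    rw [← sum_mul] at h4
    have h3' : ∑ j ∈ univ.erase k, (σ j : ℤ) = σ k := by exact_mod_cast h3
    rw [h3'] at h4
    linarith
  have h3 : (2 : ℤ) ≤ ((∑ u ∈ un Q, δ u : ℕ) : ℤ) := by exact_mod_cast h.big
  rw [e1] at h1
  simp only [card_empty, Nat.cast_zero] at h1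
  rw [← card_pos]
  have h4 : (0 : ℤ) < (PP G Q k k).card := by
    rw [h1]
    linarith
  exact_mod_cast h4

theorem hN' (h : Dat G Q σ δ a K m) (u : V) : (N G Q u).card ≤ m + K := by
  by_cases hu : u ∈ un Q
  · obtain ⟨j, hj⟩ := mem_un'.1 hu
    rw [h.deg j u hj]
    have h1 := sig_le h j
    have h2 : δ u ≤ ∑ u ∈ un Q, δ u :=
      single_le_sum (f := δ) (fun _ _ => Nat.zero_le _) hu
    have h3 := h.sml
    omega
  · have : N G Q u = ∅ := by
      rw [Finset.eq_empty_iff_forall_notMem]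
      intro v hv
      exact hu (Pool.IA7.Aug.mem_N.1 hv).left
    rw [this]
    simp

/-- Two vertices with deficits. -/
theorem pair (δ : V → ℕ) (s : Finset V) (h : 2 ≤ ∑ u ∈ s, δ u) :
    ∃ w ∈ s, ∃ w' ∈ s, ∀ u, I w u + I w' u ≤ δ u := by
  have h1 : ∃ w ∈ s, δ w ≠ 0 := by
    by_contra hc
    push Not at hc
    rw [sum_eq_zero hc] at h
    omega
  obtain ⟨w, hw, hw0⟩ := h1
  by_cases hw2 : 2 ≤ δ w
  · refine ⟨w, hw, w, hw, fun u => ?_⟩
    unfold I
    split_ifs with hu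
    · subst hu
      omega
    · omega
  · rw [← add_sum_erase s δ hw] at h
    have h1 : ∃ w' ∈ s.erase w, δ w' ≠ 0 := by
      by_contra hc
      push Not at hc
      rw [sum_eq_zero hc] at h
      omega
    obtain ⟨w', hw', hw'0⟩ := h1
    refine ⟨w, hw, w', (mem_erase.1 hw').2, fun u => ?_⟩
    have hne := (mem_erase.1 hw').1
    unfold I
    split_ifs with hu hu'
    · exact absurd (hu'.symm.trans hu) hne
    · subst hu
      omega
    · rename_i hu'
      subst hu'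
      omega
    · omega

theorem main (h : Dat G Q σ δ a K m) : Concl G Q δ := by
  obtain ⟨w, hw, w', hw', hδ⟩ := pair δ (un Q) h.big
  by_cases h0 : HA G Q w w'
  · exact t1 δ w w' hδ h0
  obtain ⟨j, hj⟩ := mem_un'.1 hw
  obtain ⟨j', hj'⟩ := mem_un'.1 hw'
  have dw : 1 ≤ δ w := by
    have := hδ w
    unfold I at this
    rw [if_pos rfl] at this
    omega
  have dw' : 1 ≤ δ w' := by
    have := hδ w'
    unfold I at this
    rw [if_pos rfl] at this
    omega
  have cw := h.deg j w hj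
  have cw' := h.deg j' w' hj'
  -- the neighbours
  have hyy : ∃ y y', HA G Q w y ∧ HA G Q w' y' ∧ (w = w' → y ≠ y') := by
    by_cases hww : w = w'
    · subst hww
      have d2 : 2 ≤ δ w := by
        have := hδ w
        unfold I at this
        rw [if_pos rfl] at this
        omega
      have h2 : 1 < (N G Q w).card := by omega
      obtain ⟨y, hy, y', hy', hne⟩ := one_lt_card.1 h2
      exact ⟨y, y', Pool.IA7.Aug.mem_N.1 hy, Pool.IA7.Aug.mem_N.1 hy', fun _ => hne⟩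
    · have h1 : (N G Q w).Nonempty := card_pos.1 (by omega)
      have h2 : (N G Q w').Nonempty := card_pos.1 (by omega)
      obtain ⟨y, hy⟩ := h1
      obtain ⟨y', hy'⟩ := h2
      exact ⟨y, y', Pool.IA7.Aug.mem_N.1 hy, Pool.IA7.Aug.mem_N.1 hy', fun h => absurd h hww⟩
  obtain ⟨y, y', hy, hy', hne⟩ := hyy
  obtain ⟨k, hk⟩ := mem_un'.1 hy.right
  obtain ⟨k', hk'⟩ := mem_un'.1 hy'.right
  have hPP : ∀ k k' : Fin n, ∀ x ∈ PP G Q k k', HA G Q x.1 x.2 ∧ x.1 ∉ Q k ∧ x.2 ∉ Q k' := by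
    intro k k' x hx
    simp only [PP, mem_filter, mem_HP] at hx
    exact hx
  by_cases hkk : k = k'
  · subst hkk
    by_cases hs : 2 * σ k < m
    · exact t5 h.par δ (m + K) (hN' h) w w' y y' k k hδ h0 hy hy' hk hk' hne _ (hPP k k)
        (cA h k k (by omega))
    have hs' : 2 * σ k = m := le_antisymm (cB h k) (not_lt.1 hs)
    by_cases hex : ∃ x ∈ Q k, 1 ≤ δ x
    · obtain ⟨x, hx, dx⟩ := hex
      have hwx : w ≠ x := by
        rintro rfl
        exact hy.part h.par hx hk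
      have hδ' : ∀ u, I w u + I x u ≤ δ u := by
        intro u
        unfold I
        split_ifs with hu hu'
        · exact absurd (hu.symm.trans hu') hwx
        · subst hu
          omega
        · rename_i hu'
          subst hu'
          omega
        · omega
      by_cases h1 : HA G Q w x
      · exact t1 δ w x hδ' h1
      have cx := h.deg k x hx
      obtain ⟨z, hz⟩ := card_pos.1 (show 0 < (N G Q x).card by omega)
      have hz' := Pool.IA7.Aug.mem_N.1 hz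
      obtain ⟨l, hl⟩ := mem_un'.1 hz'.right
      have hkl : k ≠ l := by
        rintro rfl
        exact hz'.part h.par hx hl
      exact t5 h.par δ (m + K) (hN' h) w x y z k l hδ' h1 hy hz' hk hl
        (fun hc => absurd hc hwx) _ (hPP k l) (cD h k l hkl)
    · push Not at hex
      have hD : ∑ u ∈ Q k, δ u = 0 := sum_eq_zero fun u hu => by
        have := hex u hu
        omega
      obtain ⟨⟨z₁, z₂⟩, hz⟩ := cE h k hs' hD
      obtain ⟨hzz, hz1, hz2⟩ := hPP k k _ hz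
      simp only at hzz hz1 hz2
      have hX : ∀ x ∈ X2 G Q k, HA G Q x.1 x.2 ∧ x.2 ∈ Q k := by
        intro x hx
        simp only [X2, mem_filter, mem_HP] at hx
        exact hx
      have hXc : 16 * ((1 + (m + K)) * (m + K)) < (X2 G Q k).card := by
        have h3 := h.m3
        have h5 := cC h k (by omega)
        have h7 := lrg' h
        have h12 : (0 : ℤ) ≤ (m : ℤ) := Int.natCast_nonneg _
        have h14 : (0 : ℤ) ≤ (K : ℤ) := Int.natCast_nonneg _
        have h15 : (0 : ℤ) ≤ (m : ℤ) ^ 2 := sq_nonneg _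
        rw [card_X2]
        have h13 : ((16 * ((1 + (m + K)) * (m + K)) : ℕ) : ℤ) < (X1 G Q k).card := by
          push_cast at h7 ⊢
          linarith
        exact_mod_cast h13
      by_cases hc : z₁ ≠ w ∧ z₁ ≠ w'
      · exact t9 h.par δ (m + K) (hN' h) w w' y y' z₁ z₂ k hδ h0 hy hy' hk hk' hne hzz hz1 hz2
          hc.1 hc.2 _ hX hXc
      · have hc' : z₂ ≠ w ∧ z₂ ≠ w' := by
          have hzn := hzz.ne h.par
          have h00 : ¬ HA G Q w' w := fun hh => h0 hh.symm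
          rw [not_and_or, not_not, not_not] at hc
          constructor
          · rintro rfl
            rcases hc with rfl | rfl
            · exact hzn rfl
            · exact h00 hzz
          · rintro rfl
            rcases hc with rfl | rfl
            · exact h0 hzz
            · exact hzn rfl
        exact t9 h.par δ (m + K) (hN' h) w w' y y' z₂ z₁ k hδ h0 hy hy' hk hk' hne hzz.symm
          hz2 hz1 hc'.1 hc'.2 _ hX hXc
  · exact t5 h.par δ (m + K) (hN' h) w w' y y' k k' hδ h0 hy hy' hk hk' hne _ (hPP k k')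
      (cD h k k' hkk)

end

end Aug

/-- The row AUG. -/
theorem aug_thm : AUGStmt := by
  intro p r hr K
  refine ⟨16 * ((1 + ((p + 3 - r) + K)) * ((p + 3 - r) + K)) + 2 * (p + 3 - r) ^ 2 + 2 * K +
    (p + 3 - r) + 1, ?_⟩
  intro a ha V _ G Q σ δ hP hsiz hσ hdeg hbig hsml
  refine Aug.main (G := G) (Q := Q) (σ := σ) (a := a) (K := K) (m := p + 3 - r) ⟨hP, hsiz, ?_,
    by omega, by omega, hbig, hsml, by omega⟩
  intro j u hu
  rw [Aug.card_N hP hu, hdeg j u hu]

end Pool.LD7
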